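import Pool.Agent.H73.PCG.Tree

/-!
# Trees given by the addresses of their leaves
-/

set_option autoImplicit false

namespace Pool.Agent.H73.PCG

open SimpleGraph

variable {Λ : Type}

/-- The tree on all addresses: the address `a :: x` is joined to `x`. -/
def addrTree (Λ : Type) : SimpleGraph (List Λ) where
  Adj x y := (∃ a, x = a :: y) ∨ (∃ a, y = a :: x)
  symm := ⟨fun x y h => h.symm⟩
  loopless := ⟨fun x h => by
    rcases h with ⟨a, h⟩ | ⟨a, h⟩
    · exact absurd (congrArg List.length h) (by simp)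
    · exact absurd (congrArg List.length h) (by simp)⟩

theorem addr_acyclic : (addrTree Λ).IsAcyclic := by
  classical
  intro v c hc
  obtain ⟨x, hx, hmax⟩ := Finset.exists_max_image c.support.toFinset (fun y => y.length)
    ⟨v, by simp⟩
  rw [List.mem_toFinset] at hx
  have hc' : (c.rotate x hx).IsCycle := (Walk.isCycle_rotate hx).2 hc
  have hkey : ∀ y, (addrTree Λ).Adj x y → y ∈ c.support → y = x.tail := by
    intro y hy hys
    have h1 := hmax y (by simpa using hys)
    rcases hy with ⟨a, h⟩ | ⟨a, h⟩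
    · rw [h]; rfl
    · rw [h] at h1
      simp at h1
  have h1 : (c.rotate x hx).snd = x.tail := by
    apply hkey _ (Walk.adj_snd hc'.not_nil)
    rw [← Walk.mem_support_rotate_iff c x hx]
    exact Walk.getVert_mem_support _ _
  have h2 : (c.rotate x hx).penultimate = x.tail := by
    apply hkey _ (Walk.adj_penultimate hc'.not_nil).symm
    rw [← Walk.mem_support_rotate_iff c x hx]
    exact Walk.getVert_mem_support _ _
  exact hc'.snd_ne_penultimate (h1.trans h2.symm)

variable {L : Type}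

/-- The nodes: all final segments of the addresses of the leaves. -/
abbrev Nodes (ad : L → List Λ) : Type := {x : List Λ // ∃ l, x <:+ ad l}

/-- The tree. -/
def nodeTree (ad : L → List Λ) : SimpleGraph (Nodes ad) :=
  (addrTree Λ).comap (Subtype.val)

theorem nodes_finite [Finite L] (ad : L → List Λ) : Finite (Nodes ad) := by
  have h : {x : List Λ | ∃ l, x <:+ ad l}.Finite := by
    have h1 : {x : List Λ | ∃ l, x <:+ ad l} = ⋃ l, {x | x ∈ (ad l).tails} := by
      ext x
      simp
    rw [h1]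
    exact Set.finite_iUnion fun l => List.finite_toSet _
  exact h.to_subtype

/-- The walk down. -/
theorem exists_down (ad : L → List Λ) (ω : Λ → ℝ) (w : Sym2 (Nodes ad) → ℝ)
    (hw : ∀ x y : Nodes ad, ∀ a, x.1 = a :: y.1 → w s(x, y) = ω a)
    (c : List Λ) : ∀ (p : List Λ) (h : ∃ l, p ++ c <:+ ad l) (h' : ∃ l, c <:+ ad l),
    ∃ q : (nodeTree ad).Walk ⟨p ++ c, h⟩ ⟨c, h'⟩, q.IsPath ∧ wt w q = (p.map ω).sum ∧
      ∀ z ∈ q.support, ∃ s, s <:+ p ∧ z.1 = s ++ c
  | [], h, h' => ⟨Walk.nil, by simp, by simp [wt_nil], by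
      intro z hz
      simp only [Walk.support_nil, List.mem_singleton] at hz
      exact ⟨[], List.suffix_refl _, by rw [hz]⟩⟩
  | a :: p, h, h' => by
    have h2 : ∃ l, p ++ c <:+ ad l := by
      obtain ⟨l, hl⟩ := h
      exact ⟨l, (List.suffix_cons a (p ++ c)).trans (by simpa using hl)⟩
    obtain ⟨q, hq1, hq2, hq3⟩ := exists_down ad ω w hw c p h2 h'
    have hadj : (nodeTree ad).Adj ⟨(a :: p) ++ c, h⟩ ⟨p ++ c, h2⟩ := Or.inl ⟨a, rfl⟩
    refine ⟨Walk.cons hadj q, ?_, ?_, ?_⟩
    · refine hq1.cons ?_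
      intro hmem
      obtain ⟨s, hs, hs'⟩ := hq3 _ hmem
      have h3 := congrArg List.length hs'
      have h4 := hs.length_le
      simp at h3
      omega
    · rw [wt_cons, hq2, hw _ _ a rfl]
      simp
    · intro z hz
      rw [Walk.support_cons, List.mem_cons] at hz
      rcases hz with rfl | hz
      · exact ⟨a :: p, List.suffix_refl _, rfl⟩
      · obtain ⟨s, hs, hs'⟩ := hq3 z hz
        exact ⟨s, hs.trans (List.suffix_cons a p), hs'⟩

theorem nodeTree_isTree [Nonempty L] (ad : L → List Λ) : (nodeTree ad).IsTree := by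
  constructor
  · have hroot : ∃ l, ([] : List Λ) <:+ ad l :=
      ⟨Classical.arbitrary L, List.nil_suffix⟩
    have hr : ∀ x : Nodes ad, (nodeTree ad).Reachable x ⟨[], hroot⟩ := by
      intro x
      obtain ⟨x, hx⟩ := x
      have key : ∀ (x : List Λ) (hx : ∃ l, x <:+ ad l),
          (nodeTree ad).Reachable ⟨x, hx⟩ ⟨[], hroot⟩ := by
        intro x
        induction x with
        | nil => intro hx; exact Reachable.refl _
        | cons a x ih =>
          intro hx
          have h2 : ∃ l, x <:+ ad l := by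
            obtain ⟨l, hl⟩ := hx
            exact ⟨l, (List.suffix_cons a x).trans hl⟩
          exact Reachable.trans (Adj.reachable (Or.inl ⟨a, rfl⟩ :
            (nodeTree ad).Adj ⟨a :: x, hx⟩ ⟨x, h2⟩)) (ih h2)
      exact key x hx
    have : Nonempty (Nodes ad) := ⟨⟨[], hroot⟩⟩
    exact ⟨fun x y => (hr x).trans (hr y).symm⟩
  · exact addr_acyclic.comap ⟨Subtype.val, fun h => h⟩ Subtype.val_injective

/-- The weights: the weight of the edge between `a :: x` and `x` is `ω a`. -/
noncomputable def nodeWt (ad : L → List Λ) (ω : Λ → ℝ) : Sym2 (Nodes ad) → ℝ :=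
  Sym2.lift ⟨fun x y => |(x.1.map ω).sum - (y.1.map ω).sum|, fun _ _ => abs_sub_comm _ _⟩

theorem nodeWt_apply {ad : L → List Λ} {ω : Λ → ℝ} (hω : ∀ a, 0 < ω a) (x y : Nodes ad) (a : Λ)
    (h : x.1 = a :: y.1) : nodeWt ad ω s(x, y) = ω a := by
  unfold nodeWt
  rw [Sym2.lift_mk]
  simp only [h, List.map_cons, List.sum_cons, add_sub_cancel_right]
  exact abs_of_pos (hω a)

theorem nodeWt_pos {ad : L → List Λ} {ω : Λ → ℝ} (hω : ∀ a, 0 < ω a) :
    ∀ e ∈ (nodeTree ad).edgeSet, 0 < nodeWt ad ω e := by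
  intro e
  induction e with
  | _ x y =>
    intro h
    rcases h with ⟨a, h⟩ | ⟨a, h⟩
    · rw [nodeWt_apply hω x y a h]; exact hω a
    · rw [Sym2.eq_swap, nodeWt_apply hω y x a h]; exact hω a

/-- The distances in the tree. -/
theorem nodeTree_dist [Nonempty L] {ad : L → List Λ} {ω : Λ → ℝ} (hω : ∀ a, 0 < ω a)
    (x y : Nodes ad) (p q c : List Λ) (hx : x.1 = p ++ c) (hy : y.1 = q ++ c)
    (hne : ∀ s, s <:+ p → s <:+ q → s = []) :
    treeDist (nodeTree_isTree ad) (nodeWt ad ω) x y = (p.map ω).sum + (q.map ω).sum := by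
  obtain ⟨x, hx'⟩ := x
  obtain ⟨y, hy'⟩ := y
  simp only at hx hy
  subst hx
  subst hy
  have hc : ∃ l, c <:+ ad l := by
    obtain ⟨l, hl⟩ := hx'
    exact ⟨l, (List.suffix_append p c).trans hl⟩
  obtain ⟨r, hr1, hr2, hr3⟩ := exists_down ad ω (nodeWt ad ω) (fun x y a h =>
    nodeWt_apply hω x y a h) c p hx' hc
  obtain ⟨t, ht1, ht2, ht3⟩ := exists_down ad ω (nodeWt ad ω) (fun x y a h =>
    nodeWt_apply hω x y a h) c q hy' hc
  have hpath : (r.append t.reverse).IsPath := by
    refine isPath_append hr1 ht1.reverse ?_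
    intro z hz hz'
    rw [Walk.support_reverse, List.mem_reverse] at hz'
    obtain ⟨s, hs, hs'⟩ := hr3 z hz
    obtain ⟨s2, hs2, hs2'⟩ := ht3 z hz'
    have h1 : s = s2 := List.append_cancel_right (hs'.symm.trans hs2')
    subst h1
    have h2 := hne s hs hs2
    subst h2
    exact Subtype.ext hs'
  rw [treeDist_eq _ _ _ hpath, wt_append, wt_reverse, hr2, ht2]

/-- The leaves of the tree. -/
theorem isLeaf_iff [Finite L] (ad : L → List Λ)
    (hpre : ∀ l l', ad l <:+ ad l' → l = l')
    (hroot : ∃ a b, a ≠ b ∧ (∃ l, [a] <:+ ad l) ∧ ∃ l, [b] <:+ ad l) (x : Nodes ad) :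
    ((nodeTree ad).neighborSet x).ncard ≤ 1 ↔ ∃ l, ad l = x.1 := by
  have := nodes_finite ad
  have hfin : ((nodeTree ad).neighborSet x).Finite := Set.toFinite _
  rw [Set.ncard_le_one hfin]
  obtain ⟨x, hx⟩ := x
  constructor
  · intro h
    by_contra hno
    push Not at hno
    -- `x` has a child
    obtain ⟨l, hl⟩ := hx
    have hl' := hl
    obtain ⟨t, ht⟩ := hl
    have htne : t ≠ [] := by
      intro h0
      rw [h0] at ht
      exact hno l (by simpa using ht.symm)
    have hchild : ∃ a, ∃ l, a :: x <:+ ad l := by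
      refine ⟨t.getLast htne, l, ⟨t.dropLast, ?_⟩⟩
      rw [← ht]
      conv_rhs => rw [← List.dropLast_append_getLast htne]
      simp
    obtain ⟨a, l1, hl1⟩ := hchild
    cases x with
    | nil =>
      obtain ⟨a, b, hab, ha, hb⟩ := hroot
      have h1 := h ⟨[a], ha⟩ (Or.inr ⟨a, rfl⟩) ⟨[b], hb⟩ (Or.inr ⟨b, rfl⟩)
      simp only [Subtype.mk.injEq, List.cons.injEq, and_true] at h1
      exact hab h1
    | cons b x =>
      have hx2 : ∃ l, x <:+ ad l := ⟨l, (List.suffix_cons b x).trans hl'⟩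
      have h1 := h ⟨a :: b :: x, ⟨l1, hl1⟩⟩ (Or.inr ⟨a, rfl⟩) ⟨x, hx2⟩ (Or.inl ⟨b, rfl⟩)
      simp only [Subtype.mk.injEq] at h1
      have h2 := congrArg List.length h1
      simp at h2
      omega
  · rintro ⟨l, hl⟩
    rintro ⟨y, hy⟩ hay ⟨z, hz⟩ haz
    have key : ∀ (y : List Λ) (hy : ∃ l, y <:+ ad l),
        (nodeTree ad).Adj ⟨x, hx⟩ ⟨y, hy⟩ → y = x.tail := by
      intro y hy hadj
      rcases hadj with ⟨a, h⟩ | ⟨a, h⟩
      · simp only at h
        rw [h]; rfl
      · exfalso
        simp only at h hl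
        obtain ⟨l', hl'⟩ := hy
        rw [h, ← hl] at hl'
        have h1 := hpre l l' ((List.suffix_cons a (ad l)).trans hl')
        subst h1
        have h2 := hl'.length_le
        simp at h2
    have h1 := key y hy hay
    have h2 := key z hz haz
    exact Subtype.ext (h1.trans h2.symm)

end Pool.Agent.H73.PCG
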