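import Pool.Agent.H73.PCG.Inst

/-!
# The reduction from 3SAT to generalized PCG recognition: completeness
-/

set_option autoImplicit false
set_option linter.unusedSimpArgs false

namespace Pool.Agent.H73.PCG

open SimpleGraph Pool.Agent.NPC

/-- Names of the edges of the tree. -/
inductive Lb : Type
  | arm (z : ℕ ⊕ Bool)
  | tip
  | stem
  | side (k : Bool)
  | mid
  | stem2
  | side2 (k : Bool)
  | leaf (a : Lab) (n : ℕ)
  deriving DecidableEq

/-- The weights. -/
def om : Lb → ℕ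
  | .arm _ => 3
  | .tip => 2
  | .stem => 3
  | .side _ => 6
  | .mid => 6
  | .stem2 => 2
  | .side2 _ => 6
  | .leaf _ n => n + 1

theorem om_pos (a : Lb) : 0 < om a := by
  cases a <;> simp [om]

section

variable (τ o κ : ℕ → Bool)

/-- Addresses of variable vertices. -/
def rC (a : Lab) : List Lb :=
  [.arm (Sum.inl a.2.1), .tip, .stem, .side a.2.2.2.1.1] ++
    (bif a.2.2.2.1.2 == τ a.2.1 then [.mid, .leaf a 8] else [.leaf a 2])

/-- Addresses of guard vertices. -/
def rG (a : Lab) : List Lb :=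
  [.arm (Sum.inl a.2.1), .tip, .stem, .side a.2.2.1, .mid, .stem2, .side2 a.2.2.2.1.1,
    .leaf a (bif a.2.2.2.1.2 then 2 else 15)]

/-- The arm of a literal. -/
def armL (l : Lit ℕ) (e : Bool) : ℕ ⊕ Bool := bif τ l.2 == l.1 then Sum.inr e else Sum.inl l.2

/-- Addresses of clause vertices. -/
def rK (a : Lab) : List Lb :=
  .arm (armL τ (bif o a.2.1 then a.2.2.2.2.1 else a.2.2.2.2.2)
    (bif o a.2.1 then a.2.2.2.1.1 else a.2.2.2.1.2)) ::
    (bif (bif o a.2.1 then a.2.2.2.1.2 else a.2.2.2.1.1) == κ a.2.1 then [.tip, .leaf a 15]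
      else [.leaf a 0])

/-- The addresses. -/
def ra (a : Lab) : List Lb :=
  if a.1 = 0 then rC τ a else if a.1 = 1 then rG a else rK τ o κ a

theorem leaf_mem (a : Lab) : (∃ n, Lb.leaf a n ∈ ra τ o κ a) ∧
    ∀ b n, Lb.leaf b n ∈ ra τ o κ a → b = a := by
  unfold ra
  split_ifs with h1 h2
  · unfold rC
    cases a.2.2.2.1.2 == τ a.2.1 <;> simp
  · unfold rG
    simp
  · unfold rK
    cases (bif o a.2.1 then a.2.2.2.1.2 else a.2.2.2.1.1) == κ a.2.1 <;> simp

theorem ra_prefix {a b : Lab} (h : ra τ o κ a <+: ra τ o κ b) : a = b := by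
  obtain ⟨⟨n, hn⟩, -⟩ := leaf_mem τ o κ a
  obtain ⟨-, h2⟩ := leaf_mem τ o κ b
  exact h2 _ _ (h.subset hn)

theorem ra_C (x : ℕ) (q : Bool × Bool) : ra τ o κ (vC x q) =
    [.arm (Sum.inl x), .tip, .stem, .side q.1] ++
      (bif q.2 == τ x then [.mid, .leaf (vC x q) 8] else [.leaf (vC x q) 2]) := rfl

theorem ra_G (x : ℕ) (k : Bool) (q : Bool × Bool) : ra τ o κ (vG x k q) =
    [.arm (Sum.inl x), .tip, .stem, .side k, .mid, .stem2, .side2 q.1,
    .leaf (vG x k q) (bif q.2 then 2 else 15)] := rfl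

theorem ra_K (j : ℕ) (c : Lit ℕ × Lit ℕ × Lit ℕ) (q : Bool × Bool) : ra τ o κ (vK j c q) =
    .arm (armL τ (bif o j then (bif q.1 then c.2.1 else c.1) else (bif q.2 then c.2.2 else c.1))
      (bif o j then q.1 else q.2)) ::
    (bif (bif o j then q.2 else q.1) == κ j then [.tip, .leaf (vK j c q) 15]
      else [.leaf (vK j c q) 0]) := rfl

/-- Distances of addresses. -/
def D (a b : Lab) : ℕ := rdist om (ra τ o κ a) (ra τ o κ b)

/-- Near or far. -/
def bad (n : ℕ) : Prop := n < 20 ∨ 40 < n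

/-- In the middle. -/
def good (n : ℕ) : Prop := 20 ≤ n ∧ n ≤ 40

instance (n : ℕ) : Decidable (bad n) := by unfold bad; infer_instance
instance (n : ℕ) : Decidable (good n) := by unfold good; infer_instance

theorem D_CC (x : ℕ) (q q' : Bool × Bool) :
    (((q.1 ^^ q'.1) ^^ (q.2 ^^ q'.2)) = true → bad (D τ o κ (vC x q) (vC x q'))) ∧
    (((q.1 ^^ q'.1) && (q.2 ^^ q'.2)) = true → good (D τ o κ (vC x q) (vC x q'))) := by
  obtain ⟨a, b⟩ := q
  obtain ⟨c, d⟩ := q'
  unfold D bad good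
  rw [ra_C, ra_C]
  generalize τ x = t
  cases a <;> cases b <;> cases c <;> cases d <;> cases t <;> simp [rdist, om, vC]

theorem D_GG (x : ℕ) (k : Bool) (q q' : Bool × Bool) :
    (((q.1 ^^ q'.1) ^^ (q.2 ^^ q'.2)) = true → bad (D τ o κ (vG x k q) (vG x k q'))) ∧
    (((q.1 ^^ q'.1) && (q.2 ^^ q'.2)) = true → good (D τ o κ (vG x k q) (vG x k q'))) := by
  obtain ⟨a, b⟩ := q
  obtain ⟨c, d⟩ := q'
  unfold D bad good
  rw [ra_G, ra_G]
  cases a <;> cases b <;> cases c <;> cases d <;> simp [rdist, om, vG]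

theorem D_CG (x : ℕ) (k b : Bool) (q : Bool × Bool) :
    good (D τ o κ (vC x (k, b)) (vG x k q)) := by
  obtain ⟨c, d⟩ := q
  unfold D good
  rw [ra_C, ra_G]
  generalize τ x = t
  cases b <;> cases c <;> cases d <;> cases t <;> simp [rdist, om, vG, vC]

/-- The row literal. -/
def rl (c : Lit ℕ × Lit ℕ × Lit ℕ) (i : Bool) : Lit ℕ := bif i then c.2.1 else c.1

/-- The column literal. -/
def cl (c : Lit ℕ × Lit ℕ × Lit ℕ) (i : Bool) : Lit ℕ := bif i then c.2.2 else c.1

theorem arm_ne {c : Lit ℕ × Lit ℕ × Lit ℕ} (h1 : c.1.2 ≠ c.2.1.2) (h2 : c.1.2 ≠ c.2.2.2)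
    (O : Bool) : armL τ (bif O then rl c false else cl c false) false ≠
      armL τ (bif O then rl c true else cl c true) true := by
  unfold armL rl cl
  cases O
  · simp only [cond_false, cond_true]
    cases τ c.1.2 == c.1.1 <;> cases τ c.2.2.2 == c.2.2.1 <;> simp [h1, h2]
  · simp only [cond_false, cond_true]
    cases τ c.1.2 == c.1.1 <;> cases τ c.2.1.2 == c.2.1.1 <;> simp [h1, h2]

theorem D_KK (j : ℕ) {c : Lit ℕ × Lit ℕ × Lit ℕ} (h1 : c.1.2 ≠ c.2.1.2) (h2 : c.1.2 ≠ c.2.2.2)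
    (q q' : Bool × Bool) :
    (((q.1 ^^ q'.1) ^^ (q.2 ^^ q'.2)) = true → bad (D τ o κ (vK j c q) (vK j c q'))) ∧
    (((q.1 ^^ q'.1) && (q.2 ^^ q'.2)) = true → good (D τ o κ (vK j c q) (vK j c q'))) := by
  have hne := arm_ne τ h1 h2 (o j)
  have hne' := hne.symm
  obtain ⟨a, b⟩ := q
  obtain ⟨a', b'⟩ := q'
  unfold D bad good
  rw [ra_K, ra_K]
  unfold rl cl at hne hne'
  generalize κ j = t
  revert hne hne'
  generalize o j = O
  cases O
  · simp only [cond_false, cond_true]
    intro hne hne'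
    cases a <;> cases b <;> cases a' <;> cases b' <;> cases t <;> simp [rdist, om, vK, hne, hne']
  · simp only [cond_false, cond_true]
    intro hne hne'
    cases a <;> cases b <;> cases a' <;> cases b' <;> cases t <;> simp [rdist, om, vK, hne, hne']

theorem good_CK (x : ℕ) (k ch hi : Bool) (z : ℕ ⊕ Bool) (a b : Lab)
    (h1 : ch = false → z ≠ Sum.inl x) (h2 : hi = true → ch = true → z = Sum.inl x) :
    good (rdist om (([.arm (Sum.inl x), .tip, .stem, .side k] : List Lb) ++
      (bif ch then [.mid, .leaf a 8] else [.leaf a 2]))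
      (.arm z :: (bif hi then [.tip, .leaf b 15] else [.leaf b 0]))) := by
  by_cases hz : z = Sum.inl x
  · subst hz
    cases ch
    · exact absurd rfl (h1 rfl)
    · cases hi <;> simp [rdist, om, good]
  · have hz' : Sum.inl x ≠ z := fun h => hz h.symm
    cases hi
    · cases ch <;> simp [rdist, om, good, hz, hz']
    · cases ch
      · simp [rdist, om, good, hz, hz']
      · exact absurd (h2 rfl rfl) hz

theorem lit_eq {c : Lit ℕ × Lit ℕ × Lit ℕ} (h1 : c.1.2 ≠ c.2.1.2) (h2 : c.1.2 ≠ c.2.2.2)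
    (h3 : c.2.1.2 ≠ c.2.2.2) (i j : Bool) (h : (rl c i).2 = (cl c j).2) : rl c i = cl c j := by
  unfold rl cl at *
  cases i <;> cases j
  · rfl
  · exact absurd h h2
  · exact absurd h.symm h1
  · exact absurd h h3

theorem D_CK (j : ℕ) {c : Lit ℕ × Lit ℕ × Lit ℕ} (h1 : c.1.2 ≠ c.2.1.2) (h2 : c.1.2 ≠ c.2.2.2)
    (h3 : c.2.1.2 ≠ c.2.2.2)
    (hτ : τ (bif o j then cl c (κ j) else rl c (κ j)).2 =
      (bif o j then cl c (κ j) else rl c (κ j)).1)
    (l : Lit ℕ) (k : Bool) (q : Bool × Bool) (hl : rl c q.1 = l ∨ cl c q.2 = l) :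
    good (D τ o κ (vC l.2 (k, !l.1)) (vK j c q)) := by
  unfold D
  rw [ra_C, ra_K]
  refine good_CK l.2 k _ _ _ _ _ ?_ ?_
  · intro hch hz
    have hlt : τ l.2 = l.1 := by
      revert hch
      cases τ l.2 <;> cases l.1 <;> simp
    have hen : (if o j then rl c q.1 else cl c q.2).2 = l.2 ∧
        τ (if o j then rl c q.1 else cl c q.2).2 ≠ (if o j then rl c q.1 else cl c q.2).1 := by
      revert hz
      unfold armL
      cases o j
      · simp only [cond_false, Bool.false_eq_true, if_false]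
        change (bif τ (cl c q.2).2 == (cl c q.2).1 then _ else _) = _ → _
        cases he : τ (cl c q.2).2 == (cl c q.2).1
        · intro h
          rw [beq_eq_false_iff_ne] at he
          exact ⟨Sum.inl_injective h, he⟩
        · intro h
          simp at h
      · simp only [cond_true, if_true]
        change (bif τ (rl c q.1).2 == (rl c q.1).1 then _ else _) = _ → _
        cases he : τ (rl c q.1).2 == (rl c q.1).1
        · intro h
          rw [beq_eq_false_iff_ne] at he
          exact ⟨Sum.inl_injective h, he⟩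
        · intro h
          simp at h
    obtain ⟨e1, e2⟩ := hen
    rcases hl with hl | hl
    · by_cases ho : o j = true
      · rw [if_pos ho, hl] at e2
        exact e2 hlt
      · rw [if_neg ho] at e1 e2
        rw [← hl] at e1
        have := lit_eq h1 h2 h3 _ _ e1.symm
        rw [← this, hl] at e2
        exact e2 hlt
    · by_cases ho : o j = true
      · rw [if_pos ho] at e1 e2
        rw [← hl] at e1
        have := lit_eq h1 h2 h3 _ _ e1
        rw [this, hl] at e2
        exact e2 hlt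
      · rw [if_neg ho, hl] at e2
        exact e2 hlt
  · intro hhi hch
    have hlf : τ l.2 ≠ l.1 := by
      revert hch
      cases τ l.2 <;> cases l.1 <;> simp
    have he : (bif o j then (bif q.1 then c.2.1 else c.1) else (bif q.2 then c.2.2 else c.1)) =
        l := by
      revert hτ hhi
      cases o j
      · simp only [cond_false, beq_iff_eq]
        intro hτ hhi
        rcases hl with hl | hl
        · rw [← hhi, hl] at hτ
          exact absurd hτ hlf
        · exact hl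
      · simp only [cond_true, beq_iff_eq]
        intro hτ hhi
        rcases hl with hl | hl
        · exact hl
        · rw [← hhi, hl] at hτ
          exact absurd hτ hlf
    rw [he]
    unfold armL
    have : (τ l.2 == l.1) = false := by
      rw [beq_eq_false_iff_ne]; exact hlf
    rw [this]
    rfl

section Fin

variable {φ : Frm} (hd : Distinct3 φ)

include hd in
theorem quad_good {a b : Lab} (ha : a ∈ vl φ) (hb : b ∈ vl φ) (hs : same a b = true) :
    (((a.2.2.2.1.1 ^^ b.2.2.2.1.1) ^^ (a.2.2.2.1.2 ^^ b.2.2.2.1.2)) = true →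
      bad (D τ o κ a b)) ∧
    (((a.2.2.2.1.1 ^^ b.2.2.2.1.1) && (a.2.2.2.1.2 ^^ b.2.2.2.1.2)) = true →
      good (D τ o κ a b)) := by
  unfold same at hs
  simp only [Bool.and_eq_true, decide_eq_true_eq] at hs
  obtain ⟨h1, h2, h3⟩ := hs
  rcases mem_vl.1 ha with ⟨x, q, hx, rfl⟩ | ⟨x, k, q, hx, rfl⟩ | ⟨c, j, q, hc, rfl⟩
  · rcases mem_vl.1 hb with ⟨x', q', hx', rfl⟩ | ⟨x', k', q', hx', rfl⟩ | ⟨c', j', q', hc', rfl⟩
    · change x = x' at h2
      subst h2
      exact D_CC τ o κ x q q'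
    · exact absurd h1 (by simp [vC, vG])
    · exact absurd h1 (by simp [vC, vK])
  · rcases mem_vl.1 hb with ⟨x', q', hx', rfl⟩ | ⟨x', k', q', hx', rfl⟩ | ⟨c', j', q', hc', rfl⟩
    · exact absurd h1 (by simp [vC, vG])
    · change x = x' at h2
      change k = k' at h3
      subst h2
      subst h3
      exact D_GG τ o κ x k q q'
    · exact absurd h1 (by simp [vG, vK])
  · rcases mem_vl.1 hb with ⟨x', q', hx', rfl⟩ | ⟨x', k', q', hx', rfl⟩ | ⟨c', j', q', hc', rfl⟩
    · exact absurd h1 (by simp [vC, vK])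
    · exact absurd h1 (by simp [vG, vK])
    · change j = j' at h2
      subst h2
      rw [List.mem_zipIdx_iff_getElem?] at hc hc'
      simp only at hc hc'
      have hcc : c = c' := Option.some_injective _ (hc.symm.trans hc')
      subst hcc
      have hdc := hd c (List.mem_of_getElem? hc)
      exact D_KK τ o κ j hdc.1 hdc.2.1 q q'

theorem lkG_good {a b : Lab} (ha : a ∈ vl φ) (hb : b ∈ vl φ) (h : lkG a b = true) :
    good (D τ o κ a b) := by
  unfold lkG at h
  simp only [Bool.and_eq_true, decide_eq_true_eq] at h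
  obtain ⟨h1, h2, h3, h4⟩ := h
  rcases mem_vl.1 ha with ⟨x, q, hx, rfl⟩ | ⟨x, k, q, hx, rfl⟩ | ⟨c, j, q, hc, rfl⟩
  · rcases mem_vl.1 hb with ⟨x', q', hx', rfl⟩ | ⟨x', k', q', hx', rfl⟩ | ⟨c', j', q', hc', rfl⟩
    · exact absurd h2 (by simp [vC])
    · change x = x' at h3
      change q.1 = k' at h4
      subst h3
      subst h4
      exact D_CG τ o κ x q.1 q.2 q'
    · exact absurd h2 (by simp [vK])
  · exact absurd h1 (by simp [vG])
  · exact absurd h1 (by simp [vK])

include hd in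
theorem lkK_good (hτ : ∀ c j, (c, j) ∈ φ.zipIdx →
    τ (bif o j then cl c (κ j) else rl c (κ j)).2 = (bif o j then cl c (κ j) else rl c (κ j)).1)
    {a b : Lab} (ha : a ∈ vl φ) (hb : b ∈ vl φ) (h : lkK a b = true) :
    good (D τ o κ a b) := by
  unfold lkK at h
  simp only [Bool.and_eq_true, decide_eq_true_eq, Bool.or_eq_true] at h
  obtain ⟨h1, h2, h3⟩ := h
  rcases mem_vl.1 ha with ⟨x, q, hx, rfl⟩ | ⟨x, k, q, hx, rfl⟩ | ⟨c, j, q, hc, rfl⟩
  · rcases mem_vl.1 hb with ⟨x', q', hx', rfl⟩ | ⟨x', k', q', hx', rfl⟩ | ⟨c', j', q', hc', rfl⟩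
    · exact absurd h2 (by simp [vC])
    · exact absurd h2 (by simp [vG])
    · have hdc := hd c' (List.mem_of_getElem? (List.mem_zipIdx_iff_getElem?.1 hc'))
      have := D_CK τ o κ j' hdc.1 hdc.2.1 hdc.2.2 (hτ c' j' hc') (!q.2, x) q.1 q'
        (by
          rcases h3 with h3 | h3
          · exact Or.inl h3.symm
          · exact Or.inr h3.symm)
      simpa using this
  · exact absurd h1 (by simp [vG])
  · exact absurd h1 (by simp [vK])

end Fin

end

theorem exists_orient (τ : ℕ → Bool) {φ : Frm}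
    (hτ : ∀ c ∈ φ, τ c.1.2 = c.1.1 ∨ τ c.2.1.2 = c.2.1.1 ∨ τ c.2.2.2 = c.2.2.1) :
    ∃ o κ : ℕ → Bool, ∀ c j, (c, j) ∈ φ.zipIdx →
      τ (bif o j then cl c (κ j) else rl c (κ j)).2 =
        (bif o j then cl c (κ j) else rl c (κ j)).1 := by
  have h : ∀ j : ℕ, ∃ p : Bool × Bool, ∀ c : Lit ℕ × Lit ℕ × Lit ℕ, φ[j]? = some c →
      τ (bif p.1 then cl c p.2 else rl c p.2).2 = (bif p.1 then cl c p.2 else rl c p.2).1 := by
    intro j
    cases hj : φ[j]? with
    | none => exact ⟨(false, false), fun c hc => by simp at hc⟩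
    | some c =>
      rcases hτ c (List.mem_of_getElem? hj) with h | h | h
      · exact ⟨(false, false), fun c' hc => by
          obtain rfl := Option.some_injective _ hc
          exact h⟩
      · exact ⟨(false, true), fun c' hc => by
          obtain rfl := Option.some_injective _ hc
          exact h⟩
      · exact ⟨(true, true), fun c' hc => by
          obtain rfl := Option.some_injective _ hc
          exact h⟩
  choose p hp using h
  exact ⟨fun j => (p j).1, fun j => (p j).2, fun c j hc =>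
    hp j c (List.mem_zipIdx_iff_getElem?.1 hc)⟩

theorem complete {φ : Frm} (hd : Distinct3 φ) (hne : φ ≠ []) (h : SAT3 φ) :
    HasPCG (GE φ) (GS φ) := by
  obtain ⟨τ, hτ⟩ := h
  obtain ⟨o, κ, hok⟩ := exists_orient τ hτ
  have hlen : 0 < φ.length := List.length_pos_iff.2 hne
  have : Nonempty (Vx φ) := ⟨⟨vC 0 (false, false), vC_mem (by omega) _⟩⟩
  have : Finite (Vx φ) := (List.finite_toSet (vl φ)).to_subtype
  have hpre : ∀ l l' : Vx φ, ra τ o κ l.1 <+: ra τ o κ l'.1 → l = l' :=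
    fun l l' h => Subtype.ext (ra_prefix τ o κ h)
  have hroot : ∃ a b, a ≠ b ∧ (∃ l : Vx φ, [a] <+: ra τ o κ l.1) ∧
      ∃ l : Vx φ, [b] <+: ra τ o κ l.1 :=
    ⟨.arm (Sum.inl 0), .arm (Sum.inl 1), by simp,
      ⟨⟨vC 0 (false, false), vC_mem (by omega) _⟩, ⟨_, rfl⟩⟩,
      ⟨⟨vC 1 (false, false), vC_mem (by omega) _⟩, ⟨_, rfl⟩⟩⟩
  let M := addrModel (fun l : Vx φ => ra τ o κ l.1) om om_pos hpre hroot
  have hM : ∀ u v : Vx φ, M.dist u v = (D τ o κ u.1 v.1 : ℝ) := fun u v =>
    addrModel_dist _ _ _ _ _ u v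
  have hgood : ∀ u v : Vx φ, good (D τ o κ u.1 v.1) → 20 ≤ M.dist u v ∧ M.dist u v ≤ 40 := by
    intro u v h
    rw [hM]
    exact ⟨by exact_mod_cast h.1, by exact_mod_cast h.2⟩
  refine ⟨M, 20, 40, by norm_num, by norm_num, fun u v h => ?_, fun u v h hc => ?_⟩
  · refine ⟨h.ne, ?_⟩
    change adE u.1 v.1 = true at h
    unfold adE inE at h
    simp only [Bool.or_eq_true] at h
    rcases h with h | (h | h) | (h | h)
    · rw [Bool.and_eq_true] at h
      exact hgood _ _ ((quad_good τ o κ hd u.2 v.2 h.1).2 h.2)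
    · exact hgood _ _ (lkG_good τ o κ u.2 v.2 h)
    · rw [M.dist_symm]
      exact hgood _ _ (lkG_good τ o κ v.2 u.2 h)
    · exact hgood _ _ (lkK_good τ o κ hd hok u.2 v.2 h)
    · rw [M.dist_symm]
      exact hgood _ _ (lkK_good τ o κ hd hok v.2 u.2 h)
  · change adS u.1 v.1 = true at h
    unfold adS at h
    rw [Bool.and_eq_true] at h
    have h1 := (quad_good τ o κ hd u.2 v.2 h.1).1 h.2
    have h2 := hc.2
    rw [hM] at h2
    rcases h1 with h1 | h1
    · have : (D τ o κ u.1 v.1 : ℝ) < 20 := by exact_mod_cast h1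
      linarith [h2.1]
    · have : (40 : ℝ) < (D τ o κ u.1 v.1 : ℝ) := by exact_mod_cast h1
      linarith [h2.2]

theorem correct {φ : Frm} (h : Distinct3 φ ∧ Bounded3 φ ∧ φ ≠ []) :
    SAT3 φ ↔ HasPCG (GE φ) (GS φ) :=
  ⟨complete h.1 h.2.2, sound h.2.1⟩

end Pool.Agent.H73.PCG
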