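import Pool.Agent.H73.PCG.Tree
import Pool.Agent.H671R2.GraphEnc

/-!
# Pairwise compatibility graphs and generalized PCG recognition
-/

set_option autoImplicit false

namespace Pool.Agent.H73.PCG

open SimpleGraph Pool.Agent.NPC Pool.Agent.NPC.R671

/-- A leaf of a tree: a vertex of degree at most one (so degree one, except that the vertex of the
tree with one vertex counts as a leaf). -/
def IsLeaf {W : Type} (T : SimpleGraph W) (x : W) : Prop := (T.neighborSet x).ncard ≤ 1

/-- A finite tree with positive real edge weights whose leaves are (identified with) the elements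
of `V`. -/
structure LeafTree (V : Type) where
  /-- the vertices of the tree -/
  W : Type
  /-- there are finitely many -/
  fin : Finite W
  /-- the tree -/
  T : SimpleGraph W
  /-- it is a tree -/
  isTree : T.IsTree
  /-- the weights -/
  w : Sym2 W → ℝ
  /-- the weights are positive -/
  w_pos : ∀ e ∈ T.edgeSet, 0 < w e
  /-- the leaves are the elements of `V` -/
  leaf : V ≃ {x : W // IsLeaf T x}

/-- The distance of two leaves: the sum of the weights of the edges of the path between them. -/
noncomputable def LeafTree.dist {V : Type} (M : LeafTree V) (u v : V) : ℝ :=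
  treeDist M.isTree M.w (M.leaf u) (M.leaf v)

theorem LeafTree.dist_symm {V : Type} (M : LeafTree V) (u v : V) : M.dist u v = M.dist v u :=
  treeDist_symm _ _ _ _

theorem LeafTree.four_point {V : Type} (M : LeafTree V) (a b c d : V) :
    M.dist a b + M.dist c d ≤
      max (M.dist a c + M.dist b d) (M.dist a d + M.dist b c) :=
  PCG.four_point M.isTree (fun e he => (M.w_pos e he).le) _ _ _ _

/-- The pairwise compatibility graph `PCG(T, dmin, dmax)`. -/
def LeafTree.graph {V : Type} (M : LeafTree V) (dmin dmax : ℝ) : SimpleGraph V where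
  Adj u v := u ≠ v ∧ dmin ≤ M.dist u v ∧ M.dist u v ≤ dmax
  symm := ⟨fun u v h => by
    rw [M.dist_symm v u]
    exact ⟨h.1.symm, h.2⟩⟩
  loopless := ⟨fun _ h => h.1 rfl⟩

/-- The question of generalized PCG recognition, for the graph `G` and the set of pairs given by the
edges of `S`: there are a tree whose leaves are the vertices, and `0 ≤ dmin ≤ dmax`, such that
`PCG(T, dmin, dmax)` contains every edge of `G` and no edge of `S`. -/
def HasPCG {V : Type} (G S : SimpleGraph V) : Prop :=
  ∃ (M : LeafTree V) (dmin dmax : ℝ), 0 ≤ dmin ∧ dmin ≤ dmax ∧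
    (∀ u v, G.Adj u v → (M.graph dmin dmax).Adj u v) ∧
    (∀ u v, S.Adj u v → ¬ (M.graph dmin dmax).Adj u v)

/-- Generalized PCG recognition as a decision problem on pairs of lists of rows: the input is the
adjacency matrix of a graph `G` on `{0, ..., n-1}` and that of a graph `S` whose edges are
non-edges of `G`, and `HasPCG G S` holds. -/
def GenPCG (p : List (List Bool) × List (List Bool)) : Prop :=
  ∃ (n : ℕ) (G S : SimpleGraph (Fin n)), adjMatrix G = p.1 ∧ adjMatrix S = p.2 ∧
    (∀ u v, S.Adj u v → ¬ G.Adj u v) ∧ HasPCG G S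

/-- Renaming of the leaves. -/
noncomputable def LeafTree.map {V V' : Type} (M : LeafTree V) (e : V' ≃ V) : LeafTree V' where
  W := M.W
  fin := M.fin
  T := M.T
  isTree := M.isTree
  w := M.w
  w_pos := M.w_pos
  leaf := e.trans M.leaf

theorem HasPCG.congr {V V' : Type} {G S : SimpleGraph V} {G' S' : SimpleGraph V'} (e : V' ≃ V)
    (hG : ∀ u v, G'.Adj u v ↔ G.Adj (e u) (e v)) (hS : ∀ u v, S'.Adj u v ↔ S.Adj (e u) (e v))
    (h : HasPCG G S) : HasPCG G' S' := by
  obtain ⟨M, a, b, h0, h1, h2, h3⟩ := h
  refine ⟨M.map e, a, b, h0, h1, fun u v huv => ?_, fun u v huv => ?_⟩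
  · have := h2 _ _ ((hG u v).1 huv)
    exact ⟨fun h => this.1 (congrArg e h), this.2⟩
  · intro hc
    exact h3 _ _ ((hS u v).1 huv) ⟨fun h => hc.1 (e.injective h), hc.2⟩

theorem hasPCG_iff {V V' : Type} {G S : SimpleGraph V} {G' S' : SimpleGraph V'} (e : V' ≃ V)
    (hG : ∀ u v, G'.Adj u v ↔ G.Adj (e u) (e v)) (hS : ∀ u v, S'.Adj u v ↔ S.Adj (e u) (e v)) :
    HasPCG G S ↔ HasPCG G' S' := by
  refine ⟨HasPCG.congr e hG hS, HasPCG.congr e.symm (fun u v => ?_) (fun u v => ?_)⟩
  · rw [hG]; simp
  · rw [hS]; simp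

end Pool.Agent.H73.PCG
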