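import Pool.Agent.H73.PCG.Build
import Pool.Agent.H73.PCG.Defs

/-!
# Trees given by addresses, with computable distances
-/

set_option autoImplicit false

namespace Pool.Agent.H73.PCG

open SimpleGraph

variable {Λ : Type} [DecidableEq Λ]

/-- The distance of two addresses (written from the root). -/
def rdist (ω : Λ → ℕ) : List Λ → List Λ → ℕ
  | [], y => (y.map ω).sum
  | a :: x, [] => ((a :: x).map ω).sum
  | a :: x, b :: y => if a = b then rdist ω x y else ((a :: x).map ω).sum + ((b :: y).map ω).sum

theorem rdist_spec {L : Type} [Nonempty L] {ad : L → List Λ} {ω : Λ → ℕ} (hω : ∀ a, 0 < ω a) :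
    ∀ (X Y c : List Λ) (x y : Nodes ad), x.1 = (c ++ X).reverse → y.1 = (c ++ Y).reverse →
    treeDist (nodeTree_isTree ad) (nodeWt ad (fun a => (ω a : ℝ))) x y = (rdist ω X Y : ℝ) := by
  have hω' : ∀ a, 0 < ((ω a : ℕ) : ℝ) := fun a => by exact_mod_cast hω a
  have hsum : ∀ X : List Λ, (X.map (fun a => (ω a : ℝ))).sum = (((X.map ω).sum : ℕ) : ℝ) := by
    intro X
    induction X with
    | nil => simp
    | cons a X ih => simp [ih]
  intro X
  induction X with
  | nil =>
    intro Y c x y hx hy
    rw [nodeTree_dist hω' x y [] Y.reverse c.reverse (by simpa using hx) (by simpa using hy)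
      (fun s hs _ => by simpa using hs), hsum, hsum]
    simp only [rdist]
    simp [List.sum_reverse, List.map_reverse]
  | cons a X ih =>
    intro Y c x y hx hy
    cases Y with
    | nil =>
      rw [nodeTree_dist hω' x y (a :: X).reverse [] c.reverse (by simpa using hx)
        (by simpa using hy) (fun s _ hs => by simpa using hs), hsum, hsum]
      simp only [rdist]
      simp [List.sum_reverse, List.map_reverse, add_comm]
    | cons b Y =>
      by_cases hab : a = b
      · subst hab
        rw [ih Y (c ++ [a]) x y (by simpa using hx) (by simpa using hy)]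
        simp [rdist]
      · rw [nodeTree_dist hω' x y (a :: X).reverse (b :: Y).reverse c.reverse (by simpa using hx)
          (by simpa using hy) ?_, hsum, hsum]
        · simp only [rdist, if_neg hab]
          simp [List.sum_reverse, List.map_reverse, add_comm]
        · intro s hs hs'
          rw [← List.reverse_prefix, List.reverse_reverse] at hs hs'
          cases hr : s.reverse with
          | nil => simpa using hr
          | cons d t =>
            exfalso
            rw [hr] at hs hs'
            rw [List.cons_prefix_cons] at hs hs'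
            exact hab (hs.1.symm.trans hs'.1)

/-- The tree given by addresses (written from the root) of the leaves. -/
noncomputable def addrModel {V : Type} [Finite V] [Nonempty V] (ra : V → List Λ) (ω : Λ → ℕ)
    (hω : ∀ a, 0 < ω a) (hpre : ∀ l l', ra l <+: ra l' → l = l')
    (hroot : ∃ a b, a ≠ b ∧ (∃ l, [a] <+: ra l) ∧ ∃ l, [b] <+: ra l) : LeafTree V where
  W := Nodes (fun l => (ra l).reverse)
  fin := nodes_finite _
  T := nodeTree (fun l => (ra l).reverse)
  isTree := nodeTree_isTree _
  w := nodeWt _ (fun a => (ω a : ℝ))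
  w_pos := nodeWt_pos (fun a => by exact_mod_cast hω a)
  leaf := by
    have hpre' : ∀ l l', (ra l).reverse <:+ (ra l').reverse → l = l' := fun l l' h =>
      hpre l l' (List.reverse_suffix.1 h)
    have hroot' : ∃ a b, a ≠ b ∧ (∃ l, [a] <:+ (ra l).reverse) ∧
        ∃ l, [b] <:+ (ra l).reverse := by
      obtain ⟨a, b, hab, ⟨l, hl⟩, l', hl'⟩ := hroot
      refine ⟨a, b, hab, ⟨l, ?_⟩, l', ?_⟩
      · rw [← List.reverse_suffix] at hl
        simpa using hl
      · rw [← List.reverse_suffix] at hl'
        simpa using hl'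
    refine Equiv.ofBijective (fun l => ⟨⟨(ra l).reverse, l, List.suffix_refl _⟩,
      (isLeaf_iff _ hpre' hroot' _).2 ⟨l, rfl⟩⟩) ⟨?_, ?_⟩
    · intro l l' h
      have h1 : (ra l).reverse = (ra l').reverse := congrArg (fun z => z.1.1) h
      exact hpre' l l' (h1 ▸ List.suffix_refl _)
    · rintro ⟨x, hx⟩
      obtain ⟨l, hl⟩ := (isLeaf_iff _ hpre' hroot' x).1 hx
      exact ⟨l, Subtype.ext (Subtype.ext hl)⟩

theorem addrModel_dist {V : Type} [Finite V] [Nonempty V] (ra : V → List Λ) (ω : Λ → ℕ)
    (hω : ∀ a, 0 < ω a) (hpre : ∀ l l', ra l <+: ra l' → l = l')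
    (hroot : ∃ a b, a ≠ b ∧ (∃ l, [a] <+: ra l) ∧ ∃ l, [b] <+: ra l) (u v : V) :
    (addrModel ra ω hω hpre hroot).dist u v = (rdist ω (ra u) (ra v) : ℝ) :=
  rdist_spec hω (ra u) (ra v) [] _ _ rfl rfl

end Pool.Agent.H73.PCG
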