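import Pool.Agent.H73.PCG.Dist
import Pool.Agent.NPC.Sat2

/-!
# The reduction from 3SAT to generalized PCG recognition
-/

set_option autoImplicit false
set_option linter.unusedSimpArgs false

namespace Pool.Agent.H73.PCG

open SimpleGraph Pool.Agent.NPC

/-- Labels of vertices: kind, index, side, the position in the quadruple, two literals. The
kinds are `0` (variable), `1` (guard of a variable) and `2` (clause). -/
abbrev Lab : Type := ℕ × ℕ × Bool × (Bool × Bool) × (Lit ℕ × Lit ℕ)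

/-- Three-literal formulas. -/
abbrev Frm : Type := List (Lit ℕ × Lit ℕ × Lit ℕ)

/-- The two Booleans. -/
def bb : List Bool := [false, true]

/-- The four positions in a quadruple. -/
def qq : List (Bool × Bool) := [(false, false), (false, true), (true, false), (true, true)]

/-- The label of a variable vertex. -/
def vC (x : ℕ) (q : Bool × Bool) : Lab := (0, x, false, q, ((!q.2, x), (!q.2, x)))

/-- The label of a guard vertex. -/
def vG (x : ℕ) (k : Bool) (q : Bool × Bool) : Lab := (1, x, k, q, ((false, 0), (false, 0)))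

/-- The label of a clause vertex. -/
def vK (j : ℕ) (c : Lit ℕ × Lit ℕ × Lit ℕ) (q : Bool × Bool) : Lab :=
  (2, j, false, q, (bif q.1 then c.2.1 else c.1, bif q.2 then c.2.2 else c.1))

/-- The variable vertices. -/
def l0 (φ : Frm) : List Lab := ((List.range (3 * φ.length)) ×ˢ qq).map fun p => vC p.1 p.2

/-- The guard vertices. -/
def l1 (φ : Frm) : List Lab :=
  ((List.range (3 * φ.length)) ×ˢ (bb ×ˢ qq)).map fun p => vG p.1 p.2.1 p.2.2

/-- The clause vertices. -/
def l2 (φ : Frm) : List Lab := (φ.zipIdx ×ˢ qq).map fun p => vK p.1.2 p.1.1 p.2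

/-- All vertices. -/
def vl (φ : Frm) : List Lab := l0 φ ++ (l1 φ ++ l2 φ)

/-- Same quadruple. -/
def same (a b : Lab) : Bool :=
  decide (a.1 = b.1) && (decide (a.2.1 = b.2.1) && decide (a.2.2.1 = b.2.2.1))

/-- The forbidden pairs: same quadruple and exactly one coordinate differs. -/
def adS (a b : Lab) : Bool :=
  same a b && ((a.2.2.2.1.1 ^^ b.2.2.2.1.1) ^^ (a.2.2.2.1.2 ^^ b.2.2.2.1.2))

/-- The edges between variable and guard vertices. -/
def lkG (a b : Lab) : Bool :=
  decide (a.1 = 0) && (decide (b.1 = 1) && (decide (a.2.1 = b.2.1) &&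
    decide (a.2.2.2.1.1 = b.2.2.1)))

/-- The edges between variable and clause vertices. -/
def lkK (a b : Lab) : Bool :=
  decide (a.1 = 0) && (decide (b.1 = 2) && (decide (a.2.2.2.2.1 = b.2.2.2.2.1) ||
    decide (a.2.2.2.2.1 = b.2.2.2.2.2)))

/-- The edges inside quadruples. -/
def inE (a b : Lab) : Bool :=
  same a b && ((a.2.2.2.1.1 ^^ b.2.2.2.1.1) && (a.2.2.2.1.2 ^^ b.2.2.2.1.2))

/-- The edges. -/
def adE (a b : Lab) : Bool := inE a b || ((lkG a b || lkG b a) || (lkK a b || lkK b a))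

theorem mem_qq (q : Bool × Bool) : q ∈ qq := by
  obtain ⟨a, b⟩ := q
  cases a <;> cases b <;> simp [qq]

theorem mem_bb (q : Bool) : q ∈ bb := by
  cases q <;> simp [bb]

theorem mem_vl {φ : Frm} {z : Lab} : z ∈ vl φ ↔
    (∃ x q, x < 3 * φ.length ∧ z = vC x q) ∨ (∃ x k q, x < 3 * φ.length ∧ z = vG x k q) ∨
    (∃ c j q, (c, j) ∈ φ.zipIdx ∧ z = vK j c q) := by
  unfold vl l0 l1 l2
  simp only [List.mem_append, List.mem_map, List.mem_product, List.mem_range, Prod.exists,
    mem_qq, mem_bb, and_true]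
  constructor
  · rintro (⟨x, a, b, h, rfl⟩ | ⟨x, k, a, b, h, rfl⟩ | ⟨a, b, c, d, e, f, j, g, h, i, rfl⟩)
    · exact Or.inl ⟨x, a, b, h, rfl⟩
    · exact Or.inr (Or.inl ⟨x, k, a, b, h, rfl⟩)
    · exact Or.inr (Or.inr ⟨a, b, c, d, e, f, j, g, h, i, rfl⟩)
  · rintro (⟨x, a, b, h, rfl⟩ | ⟨x, k, a, b, h, rfl⟩ | ⟨a, b, c, d, e, f, j, g, h, i, rfl⟩)
    · exact Or.inl ⟨x, a, b, h, rfl⟩
    · exact Or.inr (Or.inl ⟨x, k, a, b, h, rfl⟩)
    · exact Or.inr (Or.inr ⟨a, b, c, d, e, f, j, g, h, i, rfl⟩)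

theorem nodup_qq : qq.Nodup := by decide

theorem nodup_bb : bb.Nodup := by decide

theorem nodup_vl (φ : Frm) : (vl φ).Nodup := by
  have n0 : (l0 φ).Nodup := List.Nodup.map (fun a b h => by
    simp only [vC, Prod.mk.injEq, true_and] at h
    exact Prod.ext h.1 h.2.1) (List.nodup_range.product nodup_qq)
  have n1 : (l1 φ).Nodup := List.Nodup.map (fun a b h => by
    simp only [vG, Prod.mk.injEq, and_true, true_and] at h
    exact Prod.ext h.1 (Prod.ext h.2.1 h.2.2))
    (List.nodup_range.product (nodup_bb.product nodup_qq))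
  have n2 : (l2 φ).Nodup := by
    unfold l2
    refine List.Nodup.map_on ?_ (List.Nodup.product ?_ nodup_qq)
    · rintro ⟨⟨c, i⟩, q⟩ h ⟨⟨c', i'⟩, q'⟩ h' he
      simp only [List.mem_product, List.mem_zipIdx_iff_getElem?] at h h'
      simp only [vK, Prod.mk.injEq, true_and] at he
      obtain ⟨h1, h2, -⟩ := he
      subst h1
      have h3 := h.1.symm.trans h'.1
      simp only [Option.some.injEq] at h3
      rw [h3, h2]
    · exact List.Nodup.of_map Prod.snd (by
        rw [List.zipIdx_map_snd]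
        exact List.nodup_range' )
  have k0 : ∀ z ∈ l0 φ, z.1 = 0 := by
    intro z hz; obtain ⟨p, -, rfl⟩ := List.mem_map.1 hz; rfl
  have k1 : ∀ z ∈ l1 φ, z.1 = 1 := by
    intro z hz; obtain ⟨p, -, rfl⟩ := List.mem_map.1 hz; rfl
  have k2 : ∀ z ∈ l2 φ, z.1 = 2 := by
    intro z hz; obtain ⟨p, -, rfl⟩ := List.mem_map.1 hz; rfl
  unfold vl
  refine n0.append (n1.append n2 ?_) ?_
  · intro z h h'
    have := k1 z h; have := k2 z h'; omega
  · intro z h h'
    have := k0 z h
    rcases List.mem_append.1 h' with h' | h'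
    · have := k1 z h'; omega
    · have := k2 z h'; omega

theorem same_symm (a b : Lab) : same a b = same b a := by
  unfold same
  rw [decide_eq_decide.2 (eq_comm (a := a.1) (b := b.1)),
    decide_eq_decide.2 (eq_comm (a := a.2.1) (b := b.2.1)),
    decide_eq_decide.2 (eq_comm (a := a.2.2.1) (b := b.2.2.1))]

theorem adS_symm (a b : Lab) : adS a b = adS b a := by
  unfold adS
  rw [same_symm, Bool.xor_comm a.2.2.2.1.1, Bool.xor_comm a.2.2.2.1.2]

theorem adE_symm (a b : Lab) : adE a b = adE b a := by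
  unfold adE inE
  rw [same_symm, Bool.xor_comm a.2.2.2.1.1, Bool.xor_comm a.2.2.2.1.2, Bool.or_comm (lkG a b),
    Bool.or_comm (lkK a b)]

theorem adS_irrefl (a : Lab) : adS a a = false := by
  unfold adS
  simp

theorem adE_irrefl (a : Lab) : adE a a = false := by
  unfold adE inE lkG lkK
  by_cases h : a.1 = 0
  · simp [h]
  · simp [h]

theorem adS_adE {a b : Lab} (h : adS a b = true) : adE a b = false := by
  unfold adS same at h
  unfold adE inE lkG lkK same
  simp only [Bool.and_eq_true, decide_eq_true_eq] at h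
  obtain ⟨⟨h1, h2, h3⟩, h4⟩ := h
  rw [h1, h2, h3]
  by_cases h5 : b.1 = 0
  · simp only [h5]
    revert h4
    cases a.2.2.2.1.1 <;> cases b.2.2.2.1.1 <;> cases a.2.2.2.1.2 <;> cases b.2.2.2.1.2 <;> simp
  · simp only [h5]
    revert h4
    cases a.2.2.2.1.1 <;> cases b.2.2.2.1.1 <;> cases a.2.2.2.1.2 <;> cases b.2.2.2.1.2 <;> simp

/-- The vertices. -/
abbrev Vx (φ : Frm) : Type := {z : Lab // z ∈ vl φ}

/-- The graph of the reduction. -/
def GE (φ : Frm) : SimpleGraph (Vx φ) where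
  Adj u v := adE u.1 v.1 = true
  symm := ⟨fun u v h => by rw [adE_symm]; exact h⟩
  loopless := ⟨fun u h => by rw [adE_irrefl] at h; exact absurd h (by simp)⟩

/-- The forbidden pairs of the reduction. -/
def GS (φ : Frm) : SimpleGraph (Vx φ) where
  Adj u v := adS u.1 v.1 = true
  symm := ⟨fun u v h => by rw [adS_symm]; exact h⟩
  loopless := ⟨fun u h => by rw [adS_irrefl] at h; exact absurd h (by simp)⟩

/-! ### Soundness -/

section Sound

variable {φ : Frm} (M : LeafTree (Vx φ)) (dmin dmax : ℝ)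

/-- Distances of labels. -/
noncomputable def dd (a b : Lab) : ℝ :=
  open Classical in
  if h : a ∈ vl φ ∧ b ∈ vl φ then M.dist ⟨a, h.1⟩ ⟨b, h.2⟩ else 0

theorem dd_symm (a b : Lab) : dd M a b = dd M b a := by
  unfold dd
  by_cases h : a ∈ vl φ ∧ b ∈ vl φ
  · rw [dif_pos h, dif_pos h.symm, M.dist_symm]
  · rw [dif_neg h, dif_neg (fun h' => h h'.symm)]

theorem dd_four {a b c d : Lab} (ha : a ∈ vl φ) (hb : b ∈ vl φ) (hc : c ∈ vl φ) (hd : d ∈ vl φ) :
    dd M a b + dd M c d ≤ max (dd M a c + dd M b d) (dd M a d + dd M b c) := by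
  unfold dd
  rw [dif_pos ⟨ha, hb⟩, dif_pos ⟨hc, hd⟩, dif_pos ⟨ha, hc⟩, dif_pos ⟨hb, hd⟩, dif_pos ⟨ha, hd⟩,
    dif_pos ⟨hb, hc⟩]
  exact M.four_point _ _ _ _

variable {dmin dmax}
variable (hG : ∀ u v, (GE φ).Adj u v → (M.graph dmin dmax).Adj u v)
  (hS : ∀ u v, (GS φ).Adj u v → ¬ (M.graph dmin dmax).Adj u v)

include hG in
theorem dd_E {a b : Lab} (ha : a ∈ vl φ) (hb : b ∈ vl φ) (h : adE a b = true) :
    dmin ≤ dd M a b ∧ dd M a b ≤ dmax := by
  unfold dd
  rw [dif_pos ⟨ha, hb⟩]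
  exact (hG ⟨a, ha⟩ ⟨b, hb⟩ h).2

include hS in
theorem dd_S {a b : Lab} (ha : a ∈ vl φ) (hb : b ∈ vl φ) (h : adS a b = true) :
    dd M a b < dmin ∨ dmax < dd M a b := by
  unfold dd
  rw [dif_pos ⟨ha, hb⟩]
  have h1 := hS ⟨a, ha⟩ ⟨b, hb⟩ h
  by_contra hc
  push Not at hc
  refine h1 ⟨?_, hc.1, hc.2⟩
  intro he
  have : a = b := congrArg Subtype.val he
  subst this
  rw [adS_irrefl] at h
  exact absurd h (by simp)

include hG in
/-- Two pairs with all four connections present are not both far. -/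
theorem conflict {a b c d : Lab} (ha : a ∈ vl φ) (hb : b ∈ vl φ) (hc : c ∈ vl φ) (hd : d ∈ vl φ)
    (h1 : adE a c = true) (h2 : adE a d = true) (h3 : adE b c = true) (h4 : adE b d = true)
    (hab : dmax < dd M a b) : ¬ dmax < dd M c d := by
  intro hcd
  have e1 := (dd_E M hG ha hc h1).2
  have e2 := (dd_E M hG ha hd h2).2
  have e3 := (dd_E M hG hb hc h3).2
  have e4 := (dd_E M hG hb hd h4).2
  have h := dd_four M ha hb hc hd
  rcases le_max_iff.1 h with h | h <;> linarith

include hG hS in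
/-- Each quadruple has a far pair. -/
theorem far_pair {f : Bool × Bool → Lab} (hf : ∀ q, f q ∈ vl φ)
    (hq : ∀ q, (f q).2.2.2.1 = q) (hs : ∀ q q', same (f q) (f q') = true) :
    (∃ i, dmax < dd M (f (i, false)) (f (i, true))) ∨
      ∃ j, dmax < dd M (f (false, j)) (f (true, j)) := by
  have hE : ∀ q q', (q.1 ^^ q'.1) = true → (q.2 ^^ q'.2) = true → adE (f q) (f q') = true := by
    intro q q' h1 h2
    unfold adE inE
    rw [hs, hq, hq, h1, h2]
    rfl
  have hSS : ∀ q q', ((q.1 ^^ q'.1) ^^ (q.2 ^^ q'.2)) = true → adS (f q) (f q') = true := by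
    intro q q' h1
    unfold adS
    rw [hs, hq, hq, h1]
    rfl
  have e1 := (dd_E M hG (hf (false, false)) (hf (true, true)) (hE _ _ rfl rfl)).1
  have e2 := (dd_E M hG (hf (false, true)) (hf (true, false)) (hE _ _ rfl rfl)).1
  have h := dd_four M (hf (false, false)) (hf (true, true)) (hf (false, true)) (hf (true, false))
  have s1 := dd_S M hS (hf (false, false)) (hf (false, true)) (hSS _ _ rfl)
  have s2 := dd_S M hS (hf (true, false)) (hf (true, true)) (hSS _ _ rfl)
  have s3 := dd_S M hS (hf (false, false)) (hf (true, false)) (hSS _ _ rfl)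
  have s4 := dd_S M hS (hf (false, true)) (hf (true, true)) (hSS _ _ rfl)
  have t1 := dd_symm M (f (true, true)) (f (true, false))
  have t2 := dd_symm M (f (true, true)) (f (false, true))
  rcases s1 with s1 | s1
  · rcases s2 with s2 | s2
    · rcases s3 with s3 | s3
      · rcases s4 with s4 | s4
        · exfalso
          rcases le_max_iff.1 h with h | h <;> linarith
        · exact Or.inr ⟨true, s4⟩
      · exact Or.inr ⟨false, s3⟩
    · exact Or.inl ⟨true, s2⟩
  · exact Or.inl ⟨false, s1⟩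

theorem vC_mem {x : ℕ} (hx : x < 3 * φ.length) (q : Bool × Bool) : vC x q ∈ vl φ :=
  mem_vl.2 (Or.inl ⟨x, q, hx, rfl⟩)

theorem vG_mem {x : ℕ} (hx : x < 3 * φ.length) (k : Bool) (q : Bool × Bool) : vG x k q ∈ vl φ :=
  mem_vl.2 (Or.inr (Or.inl ⟨x, k, q, hx, rfl⟩))

theorem vK_mem {c : Lit ℕ × Lit ℕ × Lit ℕ} {j : ℕ} (h : (c, j) ∈ φ.zipIdx) (q : Bool × Bool) :
    vK j c q ∈ vl φ :=
  mem_vl.2 (Or.inr (Or.inr ⟨c, j, q, h, rfl⟩))

theorem adE_CG (x : ℕ) (k b : Bool) (q : Bool × Bool) :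
    adE (vC x (k, b)) (vG x k q) = true := by
  unfold adE lkG
  simp [vC, vG]

theorem adE_CK (l : Lit ℕ) (k : Bool) (j : ℕ) (c : Lit ℕ × Lit ℕ × Lit ℕ) (q : Bool × Bool)
    (h : (bif q.1 then c.2.1 else c.1) = l ∨ (bif q.2 then c.2.2 else c.1) = l) :
    adE (vC l.2 (k, !l.1)) (vK j c q) = true := by
  unfold adE lkK
  rcases h with h | h <;> simp [vC, vK, h]

include hG hS in
theorem letter_far {x : ℕ} (hx : x < 3 * φ.length) :
    ∃ b, dmax < dd M (vC x (false, b)) (vC x (true, b)) := by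
  have hnear : ∀ k, ¬ dmax < dd M (vC x (k, false)) (vC x (k, true)) := by
    intro k
    rcases far_pair M hG hS (f := vG x k) (fun q => vG_mem hx k q) (fun q => rfl)
      (fun q q' => by simp [same, vG]) with ⟨i, hi⟩ | ⟨j, hj⟩
    · exact conflict M hG (vG_mem hx k _) (vG_mem hx k _) (vC_mem hx _) (vC_mem hx _)
        (by rw [adE_symm]; exact adE_CG _ _ _ _) (by rw [adE_symm]; exact adE_CG _ _ _ _)
        (by rw [adE_symm]; exact adE_CG _ _ _ _) (by rw [adE_symm]; exact adE_CG _ _ _ _) hi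
    · exact conflict M hG (vG_mem hx k _) (vG_mem hx k _) (vC_mem hx _) (vC_mem hx _)
        (by rw [adE_symm]; exact adE_CG _ _ _ _) (by rw [adE_symm]; exact adE_CG _ _ _ _)
        (by rw [adE_symm]; exact adE_CG _ _ _ _) (by rw [adE_symm]; exact adE_CG _ _ _ _) hj
  rcases far_pair M hG hS (f := vC x) (fun q => vC_mem hx q) (fun q => rfl)
      (fun q q' => by simp [same, vC]) with ⟨i, hi⟩ | ⟨j, hj⟩
  · exact absurd hi (hnear i)
  · exact ⟨j, hj⟩

include hG hS in
theorem sound_aux (hb : Bounded3 φ) : SAT3 φ := by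
  classical
  refine ⟨fun x => decide (¬ dmax < dd M (vC x (false, false)) (vC x (true, false))), ?_⟩
  intro c hc
  obtain ⟨j, hj⟩ := List.getElem?_of_mem hc
  have hcj : (c, j) ∈ φ.zipIdx := List.mem_zipIdx_iff_getElem?.2 hj
  -- a literal whose clause pair is far is true
  have key : ∀ (l : Lit ℕ) (q q' : Bool × Bool), l.2 < 3 * φ.length →
      ((bif q.1 then c.2.1 else c.1) = l ∨ (bif q.2 then c.2.2 else c.1) = l) →
      ((bif q'.1 then c.2.1 else c.1) = l ∨ (bif q'.2 then c.2.2 else c.1) = l) →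
      dmax < dd M (vK j c q) (vK j c q') →
      decide (¬ dmax < dd M (vC l.2 (false, false)) (vC l.2 (true, false))) = l.1 := by
    intro l q q' hl h1 h2 hfar
    have hn := conflict M hG (vK_mem hcj q) (vK_mem hcj q') (vC_mem hl (false, !l.1))
      (vC_mem hl (true, !l.1))
      (by rw [adE_symm]; exact adE_CK _ _ _ _ _ h1) (by rw [adE_symm]; exact adE_CK _ _ _ _ _ h1)
      (by rw [adE_symm]; exact adE_CK _ _ _ _ _ h2) (by rw [adE_symm]; exact adE_CK _ _ _ _ _ h2)
      hfar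
    obtain ⟨b, hb'⟩ := letter_far M hG hS hl
    cases hl1 : l.1 with
    | true =>
      rw [hl1] at hn
      exact decide_eq_true hn
    | false =>
      rw [hl1] at hn
      rw [decide_eq_false_iff_not, not_not]
      cases b with
      | false => exact hb'
      | true => exact absurd hb' hn
  have hbd := hb c hc
  rcases far_pair M hG hS (f := vK j c) (fun q => vK_mem hcj q) (fun q => rfl)
      (fun q q' => by simp [same, vK]) with ⟨i, hi⟩ | ⟨i, hi⟩
  · cases i with
    | false => exact Or.inl (key c.1 _ _ hbd.1 (Or.inl rfl) (Or.inl rfl) hi)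
    | true => exact Or.inr (Or.inl (key c.2.1 _ _ hbd.2.1 (Or.inl rfl) (Or.inl rfl) hi))
  · cases i with
    | false => exact Or.inl (key c.1 _ _ hbd.1 (Or.inr rfl) (Or.inr rfl) hi)
    | true => exact Or.inr (Or.inr (key c.2.2 _ _ hbd.2.2 (Or.inr rfl) (Or.inr rfl) hi))

end Sound

theorem sound {φ : Frm} (hb : Bounded3 φ) (h : HasPCG (GE φ) (GS φ)) : SAT3 φ := by
  obtain ⟨M, dmin, dmax, -, -, hG, hS⟩ := h
  exact sound_aux M hG hS hb

end Pool.Agent.H73.PCG
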