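import Pool.Agent.H73.PCG.Compl
import Pool.Agent.H671R2.PolyAuto

/-!
# Generalized PCG recognition is NP-hard
-/

set_option autoImplicit false

namespace Pool.Agent.H73.PCG

open SimpleGraph Pool.Agent.NPC Pool.Agent.NPC.R671

/-- The two adjacency matrices produced by the reduction. -/
def red (φ : Frm) : List (List Bool) × List (List Bool) :=
  ((vl φ).map (fun u => (vl φ).map (fun w => adE u w)),
    (vl φ).map (fun u => (vl φ).map (fun w => adS u w)))

theorem red_spec (φ : Frm) : ∃ (n : ℕ) (G S : SimpleGraph (Fin n)),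
    adjMatrix G = (red φ).1 ∧ adjMatrix S = (red φ).2 ∧ (∀ u v, S.Adj u v → ¬ G.Adj u v) ∧
    (HasPCG (GE φ) (GS φ) ↔ HasPCG G S) := by
  obtain ⟨e, he⟩ := exists_equiv (vl φ) (nodup_vl φ) (fun u : Vx φ => u.1)
    Subtype.val_injective (fun z => ⟨fun h => ⟨⟨z, h⟩, rfl⟩, fun ⟨x, hx⟩ => hx ▸ x.2⟩)
  refine ⟨(vl φ).length, listGraph (vl φ) adE adE_symm adE_irrefl,
    listGraph (vl φ) adS adS_symm adS_irrefl, adjMatrix_listGraph _ _ _ _,
    adjMatrix_listGraph _ _ _ _, ?_, ?_⟩
  · intro u v h h'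
    change adS (vl φ)[u] (vl φ)[v] = true at h
    change adE (vl φ)[u] (vl φ)[v] = true at h'
    rw [adS_adE h] at h'
    exact absurd h' (by simp)
  · refine hasPCG_iff e (fun u v => ?_) (fun u v => ?_)
    · change adE (vl φ)[u] (vl φ)[v] = true ↔ adE (e u).1 (e v).1 = true
      rw [he, he]
    · change adS (vl φ)[u] (vl φ)[v] = true ↔ adS (e u).1 (e v).1 = true
      rw [he, he]

theorem poly_vl : Poly vl := by
  have hl : UPoly (fun φ : Frm => φ.length) := UPoly.length Poly.id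
  have h1 : Poly (fun φ : Frm => List.range (3 * φ.length)) :=
    UPoly.range ((UPoly.const 3).mul hl)
  have a0 : Poly l0 := by
    unfold l0 vC
    generalize qq = r at *
    fun_prop
  have a1 : Poly l1 := by
    unfold l1 vG
    generalize qq = r at *
    generalize bb = s at *
    fun_prop
  have a2 : Poly l2 := by
    unfold l2 vK
    generalize qq = r at *
    fun_prop
  unfold vl
  fun_prop

theorem poly_same : Poly (fun p : Lab × Lab => same p.1 p.2) := by
  unfold same
  fun_prop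

theorem poly_adS : Poly (fun p : Lab × Lab => adS p.1 p.2) := by
  have := poly_same
  unfold adS
  fun_prop

theorem poly_adE : Poly (fun p : Lab × Lab => adE p.1 p.2) := by
  have := poly_same
  unfold adE inE lkG lkK
  fun_prop

theorem poly_mat {ad : Lab → Lab → Bool} (h : Poly (fun p : Lab × Lab => ad p.1 p.2)) :
    Poly (fun φ : Frm => (vl φ).map (fun u => (vl φ).map (fun w => ad u w))) := by
  have hv := poly_vl
  have h1 : Poly (fun p : (Frm × Lab) × Lab => ad p.1.2 p.2) :=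
    h.comp (Poly.pair (Poly.snd (Poly.fst Poly.id)) (Poly.snd Poly.id))
  have h2 : Poly (fun p : Frm × Lab => (vl p.1).map fun w => ad p.2 w) :=
    NPC.Poly.map (l := fun p : Frm × Lab => vl p.1)
      (F := fun (p : Frm × Lab) w => ad p.2 w) (hv.comp (Poly.fst Poly.id)) h1
  exact NPC.Poly.map (l := vl) (F := fun E u => (vl E).map fun w => ad u w) hv h2

theorem poly_red : Poly red := Poly.pair (poly_mat poly_adE) (poly_mat poly_adS)

theorem hard_explicit : ∀ L : Set (List Bool), InNP L →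
    ∃ f : List Bool → List Bool, PolyTime f ∧
    ∀ x, ∃ (n : ℕ) (G S : SimpleGraph (Fin n)), f x = bits (adjMatrix G, adjMatrix S) ∧
      (∀ u v, S.Adj u v → ¬ G.Adj u v) ∧ (x ∈ L ↔ HasPCG G S) := by
  intro L hL
  obtain ⟨g, hg, hgp, hgL⟩ := hardPr_SAT3b L hL
  refine ⟨fun x => bits (red (g x)), PC.toPolyTime_bits poly_red g hg, fun x => ?_⟩
  obtain ⟨n, G, S, h1, h2, h3, h4⟩ := red_spec (g x)
  refine ⟨n, G, S, ?_, h3, ?_⟩
  · rw [h1, h2]
  · rw [hgL, correct (hgp x), h4]

theorem genPCG_adjMatrix {n : ℕ} (G S : SimpleGraph (Fin n)) :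
    GenPCG (adjMatrix G, adjMatrix S) ↔ (∀ u v, S.Adj u v → ¬ G.Adj u v) ∧ HasPCG G S := by
  constructor
  · rintro ⟨n', G', S', h1, h2, h3⟩
    have hn : n' = n := by
      have := congrArg List.length h1
      simpa [R671.adjMatrix] using this
    subst hn
    rw [adjMatrix_inj h1, adjMatrix_inj h2] at h3
    exact h3
  · intro h
    exact ⟨n, G, S, rfl, rfl, h⟩

theorem npHard_genPCG : NPHardP GenPCG := by
  intro L hL
  obtain ⟨f, hf, h⟩ := hard_explicit L hL
  refine ⟨f, hf, fun x => ?_⟩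
  obtain ⟨n, G, S, h1, h2, h3⟩ := h x
  have e : (x ∈ L) ↔ GenPCG (adjMatrix G, adjMatrix S) := by
    rw [genPCG_adjMatrix, h3]
    exact ⟨fun h => ⟨h2, h⟩, fun h => h.2⟩
  rw [e]
  constructor
  · intro h4
    exact ⟨_, h1.symm, h4⟩
  · rintro ⟨a, ha, h4⟩
    rw [h1] at ha
    rwa [bits_injective ha] at h4

end Pool.Agent.H73.PCG
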