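import Mathlib

/-!
# Weighted distances in trees, and the four-point inequality
-/

set_option autoImplicit false

namespace Pool.Agent.H73.PCG

open SimpleGraph

variable {W : Type} {T : SimpleGraph W}

/-- The sum of the weights of the edges of a walk. -/
def wt (w : Sym2 W → ℝ) {u v : W} (p : T.Walk u v) : ℝ := (p.edges.map w).sum

/-- The weighted distance of two vertices of a tree: the sum of the weights of the edges on the
unique path between them. -/
noncomputable def treeDist (hT : T.IsTree) (w : Sym2 W → ℝ) (u v : W) : ℝ :=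
  wt w (hT.existsUnique_path u v).choose

theorem treeDist_eq (hT : T.IsTree) (w : Sym2 W → ℝ) {u v : W} (p : T.Walk u v)
    (hp : p.IsPath) : treeDist hT w u v = wt w p := by
  unfold treeDist
  have h := (hT.existsUnique_path u v).choose_spec
  rw [h.2 p hp]

theorem exists_path (hT : T.IsTree) (u v : W) : ∃ p : T.Walk u v, p.IsPath :=
  ⟨_, (hT.existsUnique_path u v).choose_spec.1⟩

theorem wt_nil (w : Sym2 W → ℝ) (u : W) : wt w (Walk.nil : T.Walk u u) = 0 := by
  simp [wt]

theorem wt_cons (w : Sym2 W → ℝ) {u v x : W} (h : T.Adj u v) (p : T.Walk v x) :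
    wt w (Walk.cons h p) = w s(u, v) + wt w p := by
  simp [wt]

theorem wt_append (w : Sym2 W → ℝ) {u v x : W} (p : T.Walk u v) (q : T.Walk v x) :
    wt w (p.append q) = wt w p + wt w q := by
  simp [wt]

theorem wt_reverse (w : Sym2 W → ℝ) {u v : W} (p : T.Walk u v) :
    wt w p.reverse = wt w p := by
  simp [wt, List.sum_reverse]

theorem wt_nonneg {w : Sym2 W → ℝ} (hw : ∀ e ∈ T.edgeSet, 0 ≤ w e) {u v : W} (p : T.Walk u v) :
    0 ≤ wt w p := by
  unfold wt
  apply List.sum_nonneg
  intro x hx
  obtain ⟨e, he, rfl⟩ := List.mem_map.1 hx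
  exact hw e (p.edges_subset_edgeSet he)

theorem treeDist_self (hT : T.IsTree) (w : Sym2 W → ℝ) (u : W) : treeDist hT w u u = 0 := by
  rw [treeDist_eq hT w Walk.nil (by simp), wt_nil]

theorem treeDist_symm (hT : T.IsTree) (w : Sym2 W → ℝ) (u v : W) :
    treeDist hT w u v = treeDist hT w v u := by
  obtain ⟨p, hp⟩ := exists_path hT u v
  rw [treeDist_eq hT w p hp, treeDist_eq hT w p.reverse hp.reverse, wt_reverse]

/-- The distance is at most the weight of any walk. -/
theorem treeDist_le_wt (hT : T.IsTree) {w : Sym2 W → ℝ} (hw : ∀ e ∈ T.edgeSet, 0 ≤ w e)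
    {u v : W} (p : T.Walk u v) : treeDist hT w u v ≤ wt w p := by
  induction p with
  | nil => rw [treeDist_self, wt_nil]
  | @cons u v x h p ih =>
    obtain ⟨q, hq⟩ := exists_path hT v x
    rw [treeDist_eq hT w q hq] at ih
    rw [wt_cons]
    by_cases hu : u ∈ q.support
    · classical
      have h1 : wt w q = wt w (q.takeUntil u hu) + wt w (q.dropUntil u hu) := by
        rw [← wt_append, Walk.take_spec]
      have h2 : treeDist hT w u x = wt w (q.dropUntil u hu) :=
        treeDist_eq hT w _ (hq.dropUntil hu)
      have h3 : 0 ≤ wt w (q.takeUntil u hu) := wt_nonneg hw _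
      have h4 : 0 ≤ w s(u, v) := hw _ h
      linarith
    · have h2 : treeDist hT w u x = wt w (Walk.cons h q) :=
        treeDist_eq hT w _ (hq.cons hu)
      rw [wt_cons] at h2
      linarith

theorem treeDist_triangle (hT : T.IsTree) {w : Sym2 W → ℝ} (hw : ∀ e ∈ T.edgeSet, 0 ≤ w e)
    (u v x : W) : treeDist hT w u x ≤ treeDist hT w u v + treeDist hT w v x := by
  obtain ⟨p, hp⟩ := exists_path hT u v
  obtain ⟨q, hq⟩ := exists_path hT v x
  rw [treeDist_eq hT w p hp, treeDist_eq hT w q hq, ← wt_append]
  exact treeDist_le_wt hT hw _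

theorem treeDist_add (hT : T.IsTree) (w : Sym2 W → ℝ) {u v x : W} (p : T.Walk u v)
    (hp : p.IsPath) (hx : x ∈ p.support) :
    treeDist hT w u v = treeDist hT w u x + treeDist hT w x v := by
  classical
  rw [treeDist_eq hT w p hp, treeDist_eq hT w _ (hp.takeUntil hx),
    treeDist_eq hT w _ (hp.dropUntil hx), ← wt_append, Walk.take_spec]

theorem isPath_append {u v x : W} {p : T.Walk u v} {q : T.Walk v x} (hp : p.IsPath)
    (hq : q.IsPath) (h : ∀ y ∈ p.support, y ∈ q.support → y = v) : (p.append q).IsPath := by
  rw [Walk.isPath_def, Walk.support_append, List.nodup_append']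
  have hq' : (v :: q.support.tail).Nodup := by
    have := hq.support_nodup
    rwa [← Walk.cons_tail_support q] at this
  refine ⟨hp.support_nodup, (List.nodup_cons.1 hq').2, ?_⟩
  intro y hy hy'
  have h1 := h y hy (List.mem_of_mem_tail hy')
  subst h1
  exact (List.nodup_cons.1 hq').1 hy'

/-- The gate of a vertex on a path. -/
theorem exists_gate (hT : T.IsTree) (w : Sym2 W → ℝ) {a b : W} (p : T.Walk a b)
    (hp : p.IsPath) (c : W) : ∃ x ∈ p.support,
      treeDist hT w c a = treeDist hT w c x + treeDist hT w x a ∧
      treeDist hT w c b = treeDist hT w c x + treeDist hT w x b := by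
  classical
  -- a path from `c` to the path of smallest length
  have hex : ∃ n : ℕ, ∃ x ∈ p.support, ∃ q : T.Walk c x, q.IsPath ∧ q.length = n := by
    obtain ⟨q, hq⟩ := exists_path hT c a
    exact ⟨q.length, a, p.start_mem_support, q, hq, rfl⟩
  obtain ⟨x, hx, q, hq, hqn⟩ := Nat.find_spec hex
  have hmin : ∀ y ∈ q.support, y ∈ p.support → y = x := by
    intro y hy hy'
    by_contra hne
    have h1 : Nat.find hex ≤ (q.takeUntil y hy).length :=
      Nat.find_min' hex ⟨y, hy', _, hq.takeUntil hy, rfl⟩
    have h2 : (q.takeUntil y hy).length + (q.dropUntil y hy).length = q.length := by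
      rw [← Walk.length_append, Walk.take_spec]
    have h3 : (q.dropUntil y hy).length ≠ 0 := by
      intro h
      exact hne (Walk.eq_of_length_eq_zero h)
    omega
  refine ⟨x, hx, ?_, ?_⟩
  · have h1 : (q.append (p.takeUntil x hx).reverse).IsPath := by
      refine isPath_append hq (hp.takeUntil hx).reverse ?_
      intro y hy hy'
      rw [Walk.support_reverse, List.mem_reverse] at hy'
      exact hmin y hy (Walk.support_takeUntil_subset_support p hx hy')
    rw [treeDist_eq hT w _ h1, wt_append, treeDist_eq hT w q hq,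
      treeDist_eq hT w _ (hp.takeUntil hx).reverse]
  · have h1 : (q.append (p.dropUntil x hx)).IsPath := by
      refine isPath_append hq (hp.dropUntil hx) ?_
      intro y hy hy'
      exact hmin y hy (Walk.support_dropUntil_subset_support p hx hy')
    rw [treeDist_eq hT w _ h1, wt_append, treeDist_eq hT w q hq,
      treeDist_eq hT w _ (hp.dropUntil hx)]

theorem between (hT : T.IsTree) (w : Sym2 W → ℝ) {a b : W} (p : T.Walk a b)
    (hp : p.IsPath) {x y : W} (hx : x ∈ p.support) (hy : y ∈ p.support) :
    treeDist hT w a b = treeDist hT w a x + treeDist hT w x y + treeDist hT w y b ∧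
      treeDist hT w a y = treeDist hT w a x + treeDist hT w x y ∧
      treeDist hT w x b = treeDist hT w x y + treeDist hT w y b ∨
    treeDist hT w a b = treeDist hT w a y + treeDist hT w y x + treeDist hT w x b ∧
      treeDist hT w a x = treeDist hT w a y + treeDist hT w y x ∧
      treeDist hT w y b = treeDist hT w y x + treeDist hT w x b := by
  classical
  have h1 := treeDist_add hT w p hp hx
  have h2 := treeDist_add hT w p hp hy
  have h3 : y ∈ (p.takeUntil x hx).support ∨ y ∈ (p.dropUntil x hx).support := by
    rw [← Walk.mem_support_append_iff, Walk.take_spec]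
    exact hy
  rcases h3 with h3 | h3
  · right
    have h4 := treeDist_add hT w _ (hp.takeUntil hx) h3
    refine ⟨by linarith, h4, by linarith⟩
  · left
    have h4 := treeDist_add hT w _ (hp.dropUntil hx) h3
    refine ⟨by linarith, by linarith, h4⟩

/-- The four-point inequality. -/
theorem four_point (hT : T.IsTree) {w : Sym2 W → ℝ} (hw : ∀ e ∈ T.edgeSet, 0 ≤ w e)
    (a b c d : W) :
    treeDist hT w a b + treeDist hT w c d ≤
      max (treeDist hT w a c + treeDist hT w b d) (treeDist hT w a d + treeDist hT w b c) := by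
  obtain ⟨p, hp⟩ := exists_path hT a b
  obtain ⟨x, hx, hx1, hx2⟩ := exists_gate hT w p hp c
  obtain ⟨y, hy, hy1, hy2⟩ := exists_gate hT w p hp d
  have t1 := treeDist_triangle hT hw c x d
  have t2 := treeDist_triangle hT hw x y d
  have s1 := treeDist_symm hT w a c
  have s2 := treeDist_symm hT w b d
  have s3 := treeDist_symm hT w a d
  have s4 := treeDist_symm hT w b c
  have s5 := treeDist_symm hT w x a
  have s6 := treeDist_symm hT w y a
  have s7 := treeDist_symm hT w y d
  have s8 := treeDist_symm hT w x y
  rcases between hT w p hp hx hy with ⟨e1, e2, e3⟩ | ⟨e1, e2, e3⟩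
  · apply le_max_of_le_right
    linarith
  · apply le_max_of_le_left
    linarith

end Pool.Agent.H73.PCG
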